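import Pool.Agent.helper53.ORE.Spec

/-!
# ORE, row ATH: the commutator of `k` and an involution (statement by helper53)
-/

set_option autoImplicit false

namespace Pool.Agent.ORE

open Module Pool.Agent.GS

open scoped BigOperators

/-- Expansion in an orthonormal basis for the trace form. -/
theorem ATH_expand {F K : Type} [Field F] [Field K] [Algebra F K] [FiniteDimensional F K]
    (u : Basis (Fin (finrank F K)) F K)
    (hu : ∀ i j, Algebra.trace F K (u i * u j) = if i = j then 1 else 0) (x : K) :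
    ∑ i, Algebra.trace F K (x * u i) • u i = x := by
  have h1 : ∀ i, Algebra.trace F K (x * u i) = u.repr x i := by
    intro i
    have e : x * u i = ∑ l, u.repr x l • (u l * u i) := by
      have e0 : x = ∑ l, u.repr x l • u l := (u.sum_repr x).symm
      calc x * u i = (∑ l, u.repr x l • u l) * u i := by rw [← e0]
        _ = ∑ l, u.repr x l • (u l * u i) := by
          rw [Finset.sum_mul]
          exact Finset.sum_congr rfl fun l _ => smul_mul_assoc _ _ _
    rw [e, map_sum, Finset.sum_eq_single i]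
    · rw [map_smul, hu, if_pos rfl, smul_eq_mul, mul_one]
    · intro l _ hl
      rw [map_smul, hu, if_neg hl, smul_zero]
    · intro h
      exact absurd (Finset.mem_univ i) h
  calc ∑ i, Algebra.trace F K (x * u i) • u i = ∑ i, u.repr x i • u i :=
        Finset.sum_congr rfl fun i _ => by rw [h1 i]
    _ = x := u.sum_repr x

theorem ATH (dqi : DQI_stmt) (onb : ONB_stmt) : ATH_stmt := by
  intro F V K _ _ _ _ _ _ _ _ Q h2 k hk σ j D r hr hr2 hkr
  obtain ⟨d1, d2, d3, _, d5⟩ := dqi Q h2 k hk σ j D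
  obtain ⟨u, hu⟩ := onb (F := F) (K := K) h2
  have hkl : Lin F k := hk.1
  have hk0 : k 0 = 0 := by
    have := hkl.2 0 0
    rwa [zero_smul, zero_smul] at this
  have hoq : Oq Q (fun i => j (u i)) :=
    ⟨fun i l _ => d1 _ _, fun i => by rw [D.q, pow_two, hu i i, if_pos rfl]⟩
  have hinj : ∀ x, j x = 0 → x = 0 := by
    intro x hx
    refine (d3 x 0 ?_).1
    rw [hx, map_zero, hk0, add_zero]
  have hli : LinearIndependent F (fun i => j (u i)) := by
    refine u.linearIndependent.map' j ?_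
    rw [LinearMap.ker_eq_bot']
    exact hinj
  have hTm : fq Q (fun i => j (u i)) ∈ OQ Q := fq_mem Q _
  set T := fq Q (fun i => j (u i)) with hT
  have hTl : Lin F T := hTm.1
  have hT1 : ∀ c, T (j c) = j c := fun c => fq_of_orth h2 hoq fun i => d1 _ _
  have hs : ∀ c, k⁻¹ (j c) = j (σ * c) + k (j c) := by
    intro c
    have := D.s c
    have h3 : k (j c) + (k (j c) + k⁻¹ (j c)) = k (j c) + j (σ * c) := by rw [this]
    rw [← add_assoc, addV h2, zero_add] at h3
    rw [h3, add_comm]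
  have hT2 : ∀ c, T (k (j c)) = k⁻¹ (j c) := by
    intro c
    rw [hs, hT, fq_apply h2 hoq, add_comm]
    congr 1
    have e : ∀ i, pb Q (k (j c)) (j (u i)) • j (u i) =
        j (Algebra.trace F K (σ * c * u i) • u i) := by
      intro i
      rw [D.f, map_smul]
    rw [Finset.sum_congr rfl fun i _ => e i, ← map_sum, ATH_expand u hu]
  have hT3 : ∀ c, T (k⁻¹ (j c)) = k (j c) := by
    intro c
    rw [hs, hTl.1, hT1, hT2, hs, ← add_assoc, addV h2, zero_add]
  have hki : Lin F k⁻¹ := ((OQ Q).inv_mem hk).1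
  set h := k * T * k⁻¹ * T with hh
  have hh1 : ∀ c, h (j c) = k (k (j c)) := by
    intro c
    rw [hh, Equiv.Perm.mul_apply, Equiv.Perm.mul_apply, Equiv.Perm.mul_apply, hT1, hT3]
  have hh2 : ∀ c, h (k (j c)) = k (k (k (j c))) := by
    intro c
    rw [hh, Equiv.Perm.mul_apply, Equiv.Perm.mul_apply, Equiv.Perm.mul_apply, hT2]
    have e1 : k⁻¹ (k⁻¹ (j c)) = k⁻¹ (j (σ * c)) + j c := by
      calc k⁻¹ (k⁻¹ (j c)) = k⁻¹ (j (σ * c) + k (j c)) := by rw [← hs]
        _ = k⁻¹ (j (σ * c)) + k⁻¹ (k (j c)) := hki.1 _ _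
        _ = k⁻¹ (j (σ * c)) + j c := by rw [invp]
    rw [e1, hTl.1, hT3, hT1, d2 c]
  have hhm : h ∈ OmQ Q := by
    have e : h = k * T * k⁻¹ * T⁻¹ := by rw [hh, hT, fq_inv]
    rw [e]
    exact Subgroup.commutator_mem_commutator hk hTm
  have hhl : Lin F h := (OmQ_le Q hhm).1
  have hh3 : ∀ x y, h (j x + k (j y)) = k (k (j x + k (j y))) := by
    intro x y
    rw [hhl.1, hh1, hh2, hkl.1, hkl.1]
  have hW : ∀ x y, k (j x + k (j y)) = j y + k (j (x + σ * y)) := by
    intro x y
    rw [hkl.1, d2 y, map_add, hkl.1]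
    abel
  have hpow : ∀ i : ℕ, ∀ x y, (h ^ i) (j x + k (j y)) = (k ^ (2 * i)) (j x + k (j y)) := by
    intro i
    induction i with
    | zero =>
      intro x y
      rfl
    | succ i ih =>
      intro x y
      have e1 : (h ^ (i + 1)) (j x + k (j y)) = (h ^ i) (k (k (j x + k (j y)))) := by
        rw [pow_succ, Equiv.Perm.mul_apply, hh3]
      have e2 : (k ^ (2 * (i + 1))) (j x + k (j y)) = (k ^ (2 * i)) (k (k (j x + k (j y)))) := by
        have : 2 * (i + 1) = 2 * i + 1 + 1 := by ring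
        rw [this, pow_succ, pow_succ, Equiv.Perm.mul_apply, Equiv.Perm.mul_apply]
      rw [e1, e2, hW, hW, ih]
  refine ⟨fun i => j (u i), hoq, hli, hhm, ?_⟩
  intro i c hc
  have hQi : ∀ v, Q ((h ^ i) v) = Q v := ((OQ Q).pow_mem (OmQ_le Q hhm) i).2
  have hpos : 0 < finrank F K := finrank_pos
  have hc1 : c = 1 := by
    have h3 := hQi (j (u ⟨0, hpos⟩))
    have h4 : Q (j (u ⟨0, hpos⟩)) = 1 := hoq.n ⟨0, hpos⟩
    have h5 := hc (j (u ⟨0, hpos⟩))
    rw [h5, Q_smul, h4, mul_one] at h3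
    have h6 : (c - 1) ^ 2 = 0 := by linear_combination h3 + (1 - c) * h2
    exact sub_eq_zero.1 (pow_eq_zero_iff (two_ne_zero)|>.1 h6)
  have h7 : r ∣ 2 * i := by
    refine d5 r hr hkr (2 * i) ?_
    intro x
    have h8 := hpow i x 0
    rw [map_zero, hk0, add_zero] at h8
    rw [← h8, hc, hc1, one_smul]
  rcases (Nat.Prime.dvd_mul hr).1 h7 with h9 | h9
  · exfalso
    exact hr2 ((Nat.prime_dvd_prime_iff_eq hr Nat.prime_two).1 h9)
  · exact h9

end Pool.Agent.ORE
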