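import Pool.Agent.helper53.ORE.Spec

/-!
# ORE, row FG: from `Gq`, `NS` to `GenDvd` (statement by helper53; adapted from helper76/ORT/FG)
-/

set_option autoImplicit false

namespace Pool.Agent.ORE

open Module Pool.Agent.GS

/-- the inverse of a semisimilarity -/
theorem FG_inv {F V : Type} [Field F] [AddCommGroup V] [Module F V] {Q : QuadraticForm F V}
    {y : Equiv.Perm V} {ψ : F ≃+* F} {ν : F} (hy : QSim Q y ψ ν) :
    QSim Q y⁻¹ ψ.symm (ψ.symm ν⁻¹) := by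
  refine ⟨?_, ?_, ?_, ?_⟩
  · exact (map_ne_zero ψ.symm).2 (inv_ne_zero hy.ne)
  · intro u v
    apply y.injective
    rw [hy.add, pinv, pinv, pinv]
  · intro c v
    apply y.injective
    rw [hy.smul, pinv, pinv, ψ.apply_symm_apply]
  · intro v
    apply ψ.injective
    have h1 := hy.form (y⁻¹ v)
    rw [pinv] at h1
    rw [map_mul, ψ.apply_symm_apply, ψ.apply_symm_apply, h1, inv_mul_cancel_left₀ hy.ne]

/-- a semisimilarity normalises the orthogonal group -/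
theorem FG_OQ {F V : Type} [Field F] [AddCommGroup V] [Module F V] {Q : QuadraticForm F V}
    {y : Equiv.Perm V} {ψ : F ≃+* F} {ν : F} (hy : QSim Q y ψ ν) {g : Equiv.Perm V}
    (hg : g ∈ OQ Q) : y * g * y⁻¹ ∈ OQ Q := by
  have hyi := FG_inv hy
  refine ⟨⟨fun u v => ?_, fun c v => ?_⟩, fun v => ?_⟩
  · rw [Equiv.Perm.mul_apply, Equiv.Perm.mul_apply, Equiv.Perm.mul_apply, Equiv.Perm.mul_apply,
      Equiv.Perm.mul_apply, Equiv.Perm.mul_apply, hyi.add, hg.1.1, hy.add]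
  · rw [Equiv.Perm.mul_apply, Equiv.Perm.mul_apply, Equiv.Perm.mul_apply, Equiv.Perm.mul_apply,
      hyi.smul, hg.1.2, hy.smul, ψ.apply_symm_apply]
  · rw [Equiv.Perm.mul_apply, Equiv.Perm.mul_apply, hy.form, hg.2, ← hy.form, pinv]

/-- a semisimilarity normalises `OmQ Q` -/
theorem FG_nom {F V : Type} [Field F] [AddCommGroup V] [Module F V] {Q : QuadraticForm F V}
    {y : Equiv.Perm V} {ψ : F ≃+* F} {ν : F} (hy : QSim Q y ψ ν) {g : Equiv.Perm V}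
    (hg : g ∈ OmQ Q) : y * g * y⁻¹ ∈ OmQ Q := by
  have h1 : (MulAut.conj y).toMonoidHom g ∈ (OmQ Q).map (MulAut.conj y).toMonoidHom :=
    Subgroup.mem_map_of_mem (MulAut.conj y).toMonoidHom hg
  unfold OmQ at h1
  rw [Subgroup.map_commutator] at h1
  have h2 : (OQ Q).map (MulAut.conj y).toMonoidHom ≤ OQ Q := by
    rintro _ ⟨g', hg', rfl⟩
    exact FG_OQ hy hg'
  exact Subgroup.commutator_mono h2 h2 h1

/-- central elements of `OmQ Q` are scalars -/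
theorem FG_centre (cno : CNO_stmt) {F V : Type} [Field F] [Finite F] [AddCommGroup V] [Module F V]
    [FiniteDimensional F V] (Q : QuadraticForm F V) (h2 : (2 : F) = 0) (hB : Nd Q)
    (hfr : 8 ≤ finrank F V) (ζ : OmQ Q) (hζ : ζ ∈ Subgroup.center (OmQ Q)) :
    ∃ c : F, ∀ v, (ζ : Equiv.Perm V) v = c • v := by
  have key : (ζ : Equiv.Perm V) = 1 := by
    refine cno Q h2 hB hfr (ζ : Equiv.Perm V) (OmQ_le Q ζ.2) ?_
    intro g hg
    refine ⟨1, fun v => ?_⟩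
    have h1 : (⟨g, hg⟩ : OmQ Q) * ζ = ζ * ⟨g, hg⟩ := Subgroup.mem_center_iff.1 hζ ⟨g, hg⟩
    have h3 : g * (ζ : Equiv.Perm V) = (ζ : Equiv.Perm V) * g := congrArg Subtype.val h1
    have h4 : (ζ : Equiv.Perm V) * g * (ζ : Equiv.Perm V)⁻¹ * g⁻¹ = 1 := by
      rw [← h3]
      group
    rw [h4, one_smul]
    rfl
  refine ⟨1, fun v => ?_⟩
  rw [key, one_smul]
  rfl

theorem FG (cno : CNO_stmt) (ad : GS.AD_stmt) : FG_stmt := by
  intro F V _ _ _ _ _ Q h2 hB hfr x y ψ ν hy hx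
  have hmem : ∀ g : OmQ Q, (g : Equiv.Perm V) ∈ OQ Q := fun g => OmQ_le Q g.2
  have HY : ∀ g : OmQ Q, ∃ h : OmQ Q, (h : Equiv.Perm V) = y * g * y⁻¹ := fun g =>
    ⟨⟨y * g * y⁻¹, FG_nom hy g.2⟩, rfl⟩
  constructor
  · intro hx1
    by_contra hns
    unfold NSc at hns
    push Not at hns
    obtain ⟨c, hc⟩ := hns
    apply hx1
    apply MulEquiv.ext
    intro q
    obtain ⟨g, rfl⟩ := QuotientGroup.mk_surjective q
    have e1 : (g : Equiv.Perm V) = y * g * y⁻¹ := by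
      rw [eq_mul_inv_iff_mul_eq]
      apply Equiv.ext
      intro v
      rw [Equiv.Perm.mul_apply, Equiv.Perm.mul_apply, hc, hc, (hmem g).1.2]
    rw [hx g g e1]
    rfl
  · intro r k z hz hgen hNS
    obtain ⟨N, Ad, hN, hAd⟩ := ad (OmQ Q).subtype (Subgroup.subtype_injective (OmQ Q))
    have hyN : y ∈ N := by
      apply hN
      · intro g
        obtain ⟨h, hh⟩ := HY g
        exact ⟨h, hh⟩
      · intro g
        have h1 : y * (y⁻¹ * (g : Equiv.Perm V) * y) * y⁻¹ ∈ OmQ Q := by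
          have h3 : y * (y⁻¹ * (g : Equiv.Perm V) * y) * y⁻¹ = g := by group
          rw [h3]
          exact g.2
        have h4 : y⁻¹ * (g : Equiv.Perm V) * y ∈ OmQ Q := by
          have h5 := FG_nom (FG_inv hy) g.2
          rwa [inv_inv] at h5
        exact ⟨⟨y⁻¹ * g * y, h4⟩, rfl⟩
    have hφN : ∀ γ : OmQ Q, (γ : Equiv.Perm V) ∈ N := by
      intro γ
      apply hN
      · intro g
        exact ⟨γ * g * γ⁻¹, rfl⟩
      · intro g
        exact ⟨γ⁻¹ * g * γ, rfl⟩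
    have hscN : ∀ c : Fˣ, sc V c ∈ N := by
      intro c
      apply hN
      · intro g
        refine ⟨g, ?_⟩
        change (g : Equiv.Perm V) = sc V c * (g : Equiv.Perm V) * (sc V c)⁻¹
        rw [← sc_comm (hmem g).1 c, mul_inv_cancel_right]
      · intro g
        refine ⟨g, ?_⟩
        change (g : Equiv.Perm V) = (sc V c)⁻¹ * (g : Equiv.Perm V) * sc V c
        rw [mul_assoc, sc_comm (hmem g).1 c, inv_mul_cancel_left]
    have hAy : Ad ⟨y, hyN⟩ = x := by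
      apply MulEquiv.ext
      intro q
      obtain ⟨g, rfl⟩ := QuotientGroup.mk_surjective q
      obtain ⟨h, hh⟩ := HY g
      rw [hx g h hh]
      exact hAd ⟨y, hyN⟩ g h hh
    have hAφ : ∀ γ : OmQ Q, Ad ⟨(γ : Equiv.Perm V), hφN γ⟩ = MulAut.conj (QuotientGroup.mk γ) := by
      intro γ
      apply MulEquiv.ext
      intro q
      obtain ⟨g, rfl⟩ := QuotientGroup.mk_surjective q
      rw [hAd ⟨(γ : Equiv.Perm V), hφN γ⟩ g (γ * g * γ⁻¹) rfl]
      rfl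
    have hAsc : ∀ c : Fˣ, Ad ⟨sc V c, hscN c⟩ = 1 := by
      intro c
      apply MulEquiv.ext
      intro q
      obtain ⟨g, rfl⟩ := QuotientGroup.mk_surjective q
      rw [hAd ⟨sc V c, hscN c⟩ g g
        (by change (g : Equiv.Perm V) = sc _ c * (g : Equiv.Perm V) * (sc _ c)⁻¹
            rw [← sc_comm (hmem g).1 c, mul_inv_cancel_right])]
      rfl
    obtain ⟨g, hg, c, hc⟩ := hgen
    refine ⟨fun i => QuotientGroup.mk (⟨g i, hg i⟩ : OmQ Q), ?_⟩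
    set H := Subgroup.closure (Set.range fun i =>
      MulAut.conj ((fun i => (QuotientGroup.mk (⟨g i, hg i⟩ : OmQ Q) : POmQ Q)) i) * x *
        (MulAut.conj ((fun i => (QuotientGroup.mk (⟨g i, hg i⟩ : OmQ Q) : POmQ Q)) i))⁻¹) with hH
    have hK : Subgroup.closure (Set.range fun i => g i * y * (g i)⁻¹) ≤
        (H.comap Ad).map N.subtype := by
      rw [Subgroup.closure_le]
      rintro _ ⟨i, rfl⟩
      have hgi : g i ∈ N := hφN ⟨g i, hg i⟩
      refine ⟨⟨g i, hgi⟩ * ⟨y, hyN⟩ * (⟨g i, hgi⟩ : N)⁻¹, ?_, rfl⟩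
      change Ad (⟨g i, hgi⟩ * ⟨y, hyN⟩ * (⟨g i, hgi⟩ : N)⁻¹) ∈ H
      have e1 : Ad ⟨g i, hgi⟩ = MulAut.conj (QuotientGroup.mk (⟨g i, hg i⟩ : OmQ Q)) :=
        hAφ ⟨g i, hg i⟩
      rw [map_mul, map_mul, map_inv, e1, hAy]
      exact Subgroup.subset_closure ⟨i, rfl⟩
    have hzN : z ∈ N := hφN ⟨z, hz⟩
    have hzH : Ad ⟨z, hzN⟩ ∈ H := by
      obtain ⟨u, hu, hu2⟩ := hK hc
      have e1 : u = ⟨sc V c, hscN c⟩ * ⟨z, hzN⟩ := by
        apply Subtype.ext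
        exact hu2
      have e2 : Ad u ∈ H := hu
      rw [e1, map_mul, hAsc, one_mul] at e2
      exact e2
    have hpow : (Ad ⟨z, hzN⟩) ^ Nat.card H = 1 := by
      have h1 : (⟨Ad ⟨z, hzN⟩, hzH⟩ : H) ^ Nat.card H = 1 := pow_card_eq_one'
      have h2 := congrArg (Subtype.val) h1
      exact h2
    have hwN : z ^ Nat.card H ∈ N := Subgroup.pow_mem _ hzN _
    have hwO : z ^ Nat.card H ∈ OmQ Q := Subgroup.pow_mem _ hz _
    have hAw : Ad ⟨z ^ Nat.card H, hwN⟩ = 1 := by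
      rw [← hpow, ← map_pow]
      rfl
    have hsc : z ^ Nat.card H = 1 := by
      refine cno Q h2 hB hfr _ (OmQ_le Q hwO) ?_
      intro g' hg'
      have hh : z ^ Nat.card H * g' * (z ^ Nat.card H)⁻¹ ∈ OmQ Q :=
        (OmQ Q).mul_mem ((OmQ Q).mul_mem hwO hg') ((OmQ Q).inv_mem hwO)
      have h1 : Ad ⟨z ^ Nat.card H, hwN⟩ (QuotientGroup.mk (⟨g', hg'⟩ : OmQ Q)) =
          QuotientGroup.mk (⟨_, hh⟩ : OmQ Q) :=
        hAd ⟨z ^ Nat.card H, hwN⟩ ⟨g', hg'⟩ ⟨_, hh⟩ rfl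
      rw [hAw] at h1
      have h3 : (⟨g', hg'⟩ : OmQ Q)⁻¹ * ⟨_, hh⟩ ∈ Subgroup.center (OmQ Q) :=
        QuotientGroup.eq.1 h1
      obtain ⟨c, hc⟩ := FG_centre cno Q h2 hB hfr _ h3
      refine ⟨c, fun v => ?_⟩
      have h4 : (⟨g', hg'⟩ : OmQ Q) * ((⟨g', hg'⟩ : OmQ Q)⁻¹ * ⟨_, hh⟩) =
          ((⟨g', hg'⟩ : OmQ Q)⁻¹ * ⟨_, hh⟩) * ⟨g', hg'⟩ := Subgroup.mem_center_iff.1 h3 ⟨g', hg'⟩
      rw [mul_inv_cancel_left] at h4
      have h5 : z ^ Nat.card H * g' * (z ^ Nat.card H)⁻¹ =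
          (g'⁻¹ * (z ^ Nat.card H * g' * (z ^ Nat.card H)⁻¹)) * g' := congrArg Subtype.val h4
      have e : z ^ Nat.card H * g' * (z ^ Nat.card H)⁻¹ * g'⁻¹ =
          g'⁻¹ * (z ^ Nat.card H * g' * (z ^ Nat.card H)⁻¹) := by
        rw [mul_inv_eq_iff_eq_mul]
        exact h5
      rw [e]
      exact hc v
    refine hNS (Nat.card H) 1 fun v => ?_
    rw [hsc, one_smul]
    rfl

end Pool.Agent.ORE
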