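import Pool.Agent.helper53.ORE.Spec

/-!
# ORE, row QZ2: quadratic forms with `{S = 0} ⊆ {Q = 0}` in characteristic two (statement by helper53)

Let `e, f` be a hyperbolic pair for `S`, `X` its orthogonal, `m = b(e,f)`. For `w ∈ X` with
`S w = 0` the vectors `w`, `w + e`, `w + f` are singular, so `b(w,e) = b(w,f) = 0`. `X` contains a
hyperbolic pair `e₁, f₁`, so it is spanned by singular vectors (`w + e₁ + S(w) f₁`). So
`b(·,e) = b(·,f) = 0` on `X`, and `Q w = m S w` from the singular vector `w + e + S(w) f`.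
-/

set_option autoImplicit false

namespace Pool.Agent.ORE

open Module Pool.Agent.GS

theorem QZ2_exp {F V : Type} [Field F] [AddCommGroup V] [Module F V] (Q : QuadraticForm F V)
    {e f : V} (he : Q e = 0) (hf : Q f = 0) (w : V) (α β : F) :
    Q (w + α • e + β • f) = Q w + α * pb Q w e + β * pb Q w f + α * β * pb Q e f := by
  rw [Q_add, Q_add, Q_smul, Q_smul, he, hf]
  simp only [map_add, LinearMap.add_apply, map_smul, LinearMap.smul_apply, smul_eq_mul]
  ring

/-- A hyperbolic pair inside a subspace. -/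
theorem QZ2_pair (cw : CWQ_stmt) {F V : Type} [Field F] [Finite F] [AddCommGroup V] [Module F V]
    [FiniteDimensional F V] (S : QuadraticForm F V) (h2 : (2 : F) = 0) (X : Submodule F V)
    (hX : 3 ≤ finrank F X) (hnd : ∀ x ∈ X, x ≠ 0 → ∃ g ∈ X, pb S x g ≠ 0) :
    ∃ e ∈ X, ∃ f ∈ X, S e = 0 ∧ S f = 0 ∧ pb S e f = 1 := by
  obtain ⟨e, heX, he0, hSe⟩ := (cw S S).1 X hX
  obtain ⟨g, hgX, hg⟩ := hnd e heX he0
  have h1 : pb S e ((pb S e g)⁻¹ • g) = 1 := by
    rw [map_smul, smul_eq_mul, inv_mul_cancel₀ hg]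
  obtain ⟨g', hg'X, hg'⟩ : ∃ g' ∈ X, pb S e g' = 1 := ⟨_, X.smul_mem _ hgX, h1⟩
  refine ⟨e, heX, g' + S g' • e, X.add_mem hg'X (X.smul_mem _ heX), hSe, ?_, ?_⟩
  · rw [Q_add, Q_smul, hSe, map_smul, smul_eq_mul, pb_symm S g' e, hg']
    linear_combination (S g') * h2
  · rw [map_add, map_smul, pb_self2 h2, smul_zero, add_zero, hg']

theorem QZ2 (cw : CWQ_stmt) : QZ2_stmt := by
  intro F V _ _ _ _ _ Q S h2 hnd hn hz
  obtain ⟨e, _, f, _, hSe, hSf, hef⟩ := QZ2_pair cw S h2 (⊤ : Submodule F V)
    (by rw [finrank_top]; omega) (by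
      intro x _ hx
      by_contra hcon
      push Not at hcon
      exact hx (hnd x fun y => hcon y trivial))
  have hfe : pb S f e = 1 := by rw [pb_symm, hef]
  have hQe : Q e = 0 := hz e hSe
  have hQf : Q f = 0 := hz f hSf
  -- the space `X`
  let L : V →ₗ[F] F × F := ((pb S).flip e).prod ((pb S).flip f)
  have hLX : ∀ w, w ∈ LinearMap.ker L ↔ pb S w e = 0 ∧ pb S w f = 0 := by
    intro w
    rw [LinearMap.mem_ker]
    constructor
    · intro h
      exact ⟨congrArg Prod.fst h, congrArg Prod.snd h⟩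
    · rintro ⟨h1, h3⟩
      exact Prod.ext h1 h3
  have hdimX : 3 ≤ finrank F (LinearMap.ker L) := by
    have h1 := LinearMap.finrank_range_add_finrank_ker L
    have h3 : finrank F (LinearMap.range L) ≤ finrank F (F × F) := Submodule.finrank_le _
    rw [Module.finrank_prod, Module.finrank_self] at h3
    omega
  have hdec : ∀ v, v + (pb S v f) • e + (pb S v e) • f ∈ LinearMap.ker L := by
    intro v
    rw [hLX]
    constructor
    · simp only [map_add, LinearMap.add_apply, map_smul, LinearMap.smul_apply, smul_eq_mul,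
        pb_self2 h2, hfe]
      linear_combination (pb S v e) * h2
    · simp only [map_add, LinearMap.add_apply, map_smul, LinearMap.smul_apply, smul_eq_mul,
        pb_self2 h2, hef]
      linear_combination (pb S v f) * h2
  obtain ⟨e1, he1X, f1, hf1X, hSe1, hSf1, hef1⟩ := QZ2_pair cw S h2 (LinearMap.ker L) hdimX (by
    intro x hx hx0
    by_contra hcon
    push Not at hcon
    apply hx0
    refine hnd x fun y => ?_
    have h1 := hcon _ (hdec y)
    obtain ⟨h3, h4⟩ := (hLX x).1 hx
    rw [map_add, map_add, map_smul, map_smul, h3, h4, smul_zero, smul_zero, add_zero,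
      add_zero] at h1
    exact h1)
  -- singular vectors of `X`
  have hsing : ∀ w ∈ LinearMap.ker L, S w = 0 → pb Q w e = 0 ∧ pb Q w f = 0 := by
    intro w hw hSw
    obtain ⟨hwe, hwf⟩ := (hLX w).1 hw
    have hQw : Q w = 0 := hz w hSw
    constructor
    · have h1 : S (w + e) = 0 := by rw [Q_add, hSw, hSe, hwe, add_zero, add_zero]
      have h3 := hz _ h1
      rw [Q_add, hQw, hQe, zero_add, zero_add] at h3
      exact h3
    · have h1 : S (w + f) = 0 := by rw [Q_add, hSw, hSf, hwf, add_zero, add_zero]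
      have h3 := hz _ h1
      rw [Q_add, hQw, hQf, zero_add, zero_add] at h3
      exact h3
  have hfe1 : pb S f1 e1 = 1 := by rw [pb_symm, hef1]
  have hspan : ∀ g, (∀ w ∈ LinearMap.ker L, S w = 0 → pb Q w g = 0) →
      ∀ w ∈ LinearMap.ker L, pb Q w g = 0 := by
    intro g hg w hw
    have hgen : ∀ u ∈ LinearMap.ker L, pb S u e1 = 0 → pb S u f1 = 0 → pb Q u g = 0 := by
      intro u hu hue huf
      have h1 : S (u + (1 : F) • e1 + S u • f1) = 0 := by
        rw [QZ2_exp S hSe1 hSf1, hue, huf, hef1]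
        linear_combination (S u) * h2
      have h3 := hg (u + (1 : F) • e1 + S u • f1) (Submodule.add_mem _ (Submodule.add_mem _ hu
        (Submodule.smul_mem _ _ he1X)) (Submodule.smul_mem _ _ hf1X)) h1
      have h4 := hg e1 he1X hSe1
      have h5 := hg f1 hf1X hSf1
      simp only [map_add, LinearMap.add_apply, map_smul, LinearMap.smul_apply, smul_eq_mul, h4, h5,
        mul_zero, add_zero] at h3
      exact h3
    have h1 : pb Q (w + (pb S w f1) • e1 + (pb S w e1) • f1) g = 0 := by
      refine hgen _ (Submodule.add_mem _ (Submodule.add_mem _ hw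
        (Submodule.smul_mem _ _ he1X)) (Submodule.smul_mem _ _ hf1X)) ?_ ?_
      · simp only [map_add, LinearMap.add_apply, map_smul, LinearMap.smul_apply, smul_eq_mul,
          pb_self2 h2, hfe1]
        linear_combination (pb S w e1) * h2
      · simp only [map_add, LinearMap.add_apply, map_smul, LinearMap.smul_apply, smul_eq_mul,
          pb_self2 h2, hef1]
        linear_combination (pb S w f1) * h2
    have h4 := hg e1 he1X hSe1
    have h5 := hg f1 hf1X hSf1
    simp only [map_add, LinearMap.add_apply, map_smul, LinearMap.smul_apply, smul_eq_mul, h4, h5,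
      mul_zero, add_zero] at h1
    exact h1
  have hA : ∀ w ∈ LinearMap.ker L, pb Q w e = 0 := hspan e fun w hw h => (hsing w hw h).1
  have hC : ∀ w ∈ LinearMap.ker L, pb Q w f = 0 := hspan f fun w hw h => (hsing w hw h).2
  have hD : ∀ w ∈ LinearMap.ker L, Q w = pb Q e f * S w := by
    intro w hw
    obtain ⟨hwe, hwf⟩ := (hLX w).1 hw
    have h1 : S (w + (1 : F) • e + S w • f) = 0 := by
      rw [QZ2_exp S hSe hSf, hwe, hwf, hef]
      linear_combination (S w) * h2
    have h3 := hz _ h1
    rw [QZ2_exp Q hQe hQf, hA w hw, hC w hw] at h3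
    linear_combination h3 - (pb Q e f * S w) * h2
  refine ⟨pb Q e f, fun v => ?_⟩
  have hw := hdec v
  set w := v + (pb S v f) • e + (pb S v e) • f with hwdef
  have hv : v = w + (pb S v f) • e + (pb S v e) • f := by
    have e1 : w + (pb S v f) • e + (pb S v e) • f =
        v + ((pb S v f) • e + (pb S v f) • e) + ((pb S v e) • f + (pb S v e) • f) := by
      rw [hwdef]
      abel
    rw [e1, addV h2, addV h2, add_zero, add_zero]
  obtain ⟨hwe, hwf⟩ := (hLX w).1 hw
  rw [hv, QZ2_exp Q hQe hQf, QZ2_exp S hSe hSf, hA w hw, hC w hw, hD w hw, hwe, hwf, hef]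
  ring

end Pool.Agent.ORE
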