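import Pool.Agent.helper83.ORE.SpecDE

/-!
# ORE, row DAR: Artin - Schreier elements (statement by helper83)
-/

set_option autoImplicit false

namespace Pool.Agent.ORE

open Module Pool.Agent.GS

theorem DAR_index {K : Type} [Field K] [Finite K] (h2 : (2 : K) = 0) (P : K →+ K)
    (hP : ∀ a, P a = a ^ 2 + a) : P.range.index = 2 := by
  have hker : Nat.card P.ker = 2 := by
    rw [Nat.card_eq_two_iff]
    refine ⟨⟨0, ?_⟩, ⟨1, ?_⟩, ?_, ?_⟩
    · rw [AddMonoidHom.mem_ker, map_zero]
    · rw [AddMonoidHom.mem_ker, hP]
      linear_combination h2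
    · intro h
      exact zero_ne_one (congrArg Subtype.val h)
    · ext ⟨x, hx⟩
      simp only [Set.mem_insert_iff, Set.mem_singleton_iff, Set.mem_univ, iff_true]
      rw [AddMonoidHom.mem_ker, hP] at hx
      have h1 : x * (x + 1) = 0 := by linear_combination hx
      rcases mul_eq_zero.1 h1 with h | h
      · left
        exact Subtype.ext h
      · right
        apply Subtype.ext
        change x = 1
        linear_combination h - h2
  have h1 := AddSubgroup.card_mul_index P.ker
  have h3 := AddSubgroup.card_mul_index P.range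
  rw [AddSubgroup.index_ker, hker] at h1
  have h4 : 0 < Nat.card P.range := Nat.card_pos
  have h5 : Nat.card P.range * P.range.index = Nat.card P.range * 2 := by
    rw [h3, ← h1]
    exact mul_comm _ _
  exact Nat.eq_of_mul_eq_mul_left h4 h5

theorem DAR : DAR_stmt := by
  intro E K _ _ _ _ _ _ h2 hodd t
  have h2K : (2 : K) = 0 := by
    have := congrArg (algebraMap E K) h2
    rwa [map_ofNat, map_zero] at this
  have hex : ∃ ρ₁ : E, ∀ a : E, a ^ 2 + a ≠ ρ₁ := by
    by_contra hcon
    push Not at hcon
    have hsurj : Function.Surjective (fun a : E => a ^ 2 + a) := hcon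
    have hinj := Finite.injective_iff_surjective.2 hsurj
    have h01 : (0 : E) = 1 := by
      apply hinj
      change (0 : E) ^ 2 + 0 = 1 ^ 2 + 1
      linear_combination -h2
    exact zero_ne_one h01
  obtain ⟨ρ₁, hρ⟩ := hex
  obtain ⟨P, hP⟩ : ∃ P : K →+ K, ∀ a, P a = a ^ 2 + a :=
    ⟨{ toFun := fun a => a ^ 2 + a
       map_zero' := by ring
       map_add' := fun a b => by linear_combination a * b * h2K }, fun _ => rfl⟩
  have hnot : algebraMap E K ρ₁ ∉ P.range := by
    rintro ⟨a, ha⟩
    rw [hP] at ha
    have hint : IsIntegral E a := IsIntegral.of_finite E a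
    have hd1 : (minpoly E a).natDegree ∣ finrank E K := minpoly.degree_dvd hint
    have hmon : (Polynomial.X ^ 2 + (Polynomial.X + Polynomial.C ρ₁) : Polynomial E).Monic := by
      refine Polynomial.monic_X_pow_add (n := 2) ?_
      rw [Polynomial.degree_X_add_C]
      exact Nat.cast_lt.2 (by norm_num : 1 < 2)
    have hnd : (Polynomial.X ^ 2 + (Polynomial.X + Polynomial.C ρ₁) : Polynomial E).natDegree
        ≤ 2 := by
      refine (Polynomial.natDegree_add_le _ _).trans ?_
      rw [Polynomial.natDegree_X_pow, Polynomial.natDegree_X_add_C]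
      norm_num
    have hdvd : minpoly E a ∣ Polynomial.X ^ 2 + (Polynomial.X + Polynomial.C ρ₁) := by
      refine minpoly.dvd E a ?_
      simp only [map_add, map_pow, Polynomial.aeval_X, Polynomial.aeval_C]
      linear_combination ha + (algebraMap E K ρ₁) * h2K
    have hle : (minpoly E a).natDegree ≤ 2 :=
      (Polynomial.natDegree_le_of_dvd hdvd hmon.ne_zero).trans hnd
    have hpos : 0 < (minpoly E a).natDegree := minpoly.natDegree_pos hint
    have hodd2 : Odd (minpoly E a).natDegree := Odd.of_dvd_nat hodd hd1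
    have h1 : (minpoly E a).natDegree = 1 := by
      rcases hodd2 with ⟨m, hm⟩
      omega
    obtain ⟨a', ha'⟩ := minpoly.natDegree_eq_one_iff.1 h1
    apply hρ a'
    apply (algebraMap E K).injective
    rw [map_add, map_pow, ha', ha]
  have hidx := DAR_index h2K P hP
  by_cases ht : t ∈ P.range
  · obtain ⟨a, ha⟩ := ht
    rw [hP] at ha
    refine ⟨a, 0, ?_⟩
    rw [map_zero, ha]
    linear_combination t * h2K
  · have h1 : t + algebraMap E K ρ₁ ∈ P.range := by
      rw [AddSubgroup.add_mem_iff_of_index_two hidx]
      exact iff_of_false ht hnot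
    obtain ⟨a, ha⟩ := h1
    rw [hP] at ha
    refine ⟨a, ρ₁, ?_⟩
    rw [ha]
    linear_combination t * h2K

end Pool.Agent.ORE
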